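import Pool.Agent.R647.FC.Semi
import Pool.Agent.R647.FC.Grow

set_option autoImplicit false

/-!
# The F-conjecture for the divisors on `M̄_{0,n}` with monotone degrees on F-curves

The marks are `0, …, p-1` (the type `Fin p`) and `∞`, so `n = p + 1`.  The boundary divisors of
`M̄_{0,n}` are the `δ_S`, `S` a set of marks different from `∞` with `2 ≤ |S| < p` (`δ_S`
separates `S` from the other marks).  The F-curve of type `(A, B, C)`, for disjoint nonempty sets
`A, B, C` of marks different from `∞`, is the one of the partition `A, B, C`, (the rest, with `∞`).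

The starting files on this problem restrict the curves; here the curves are arbitrary and the
divisors are restricted.

* (`IsMonotone`) The degree of `D` on the F-curves of type `(A, {x}, {y})` does not decrease when a
  mark is moved from the part of `∞` to `A` (for `A = ∅` the degree is zero).  These `D` form a cone
  of full dimension.  Theorem: `D` is base point free (semiample for rational coefficients), over
  every field: for every point of `M̄_{0,n}` it is linearly equivalent to an effective sum of
  boundary divisors that do not contain the point.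
* (`IsOrderMonotone`) Weaker condition: the degree of `D` on the F-curve of type `(A, B, C)` does not
  decrease when a set `X` is moved from the part of `∞` to `A`, provided that `X` contains a mark
  smaller than all the marks of `B ∪ C`, and `A` too or `A` is empty.  Theorem: `D` is nef; and if
  `D` is F-ample then `D - ε (K + Δ)` is nef for some `ε > 0`, so `D` is ample.

Curves.  An irreducible curve in `M̄_{0,n}` meets the interior of a unique stratum, and its class is
the sum of its projections to the factors `M̄_{0,q+1}` of the stratum.  Such a factor belongs to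
disjoint nonempty sets `B 0, …, B (q-1)` of marks different from `∞` (the marks behind the nodes and
marks of the component of the stable curve; the last one leads to `∞`).  On the factor the
projection of the curve has the intersection numbers `m S ≥ 0` with the boundary divisors
`δ_S`, `2 ≤ |S| < q`, the degree `d` on `ψ_∞`, and it meets the interior.  The divisor `δ_T` of
`M̄_{0,n}` restricts to `δ_S` if `T` is the union of the `B i`, `i ∈ S`, to `-ψ_i` if `T = B i`, and
to `-ψ_∞` if `T` is the union of all `B i`.

Proof.  The degree on a curve is `∑ m S ∑_{i<j in S} (F(B_1 ∪ … ∪ B_(i-1), B_i, B_j) - F(E, B_i, B_j))`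
where `F` is the degree on the F-curves and `E` the union of the `B_l`, `l < i`, `l ∈ S`.
-/

namespace Pool.Agent.Results.MP_23e236_ag.MonotoneDegrees

open Finset

section

variable {R : Type} [CommRing R] {p q : ℕ}

/-- `c` is a family of coefficients: it stands for the divisor `∑ c S • δ_S`, the sum over the
`S` with `2 ≤ |S| < p`; it vanishes on the sets that give no boundary divisor. -/
def IsDivisor (c : Finset (Fin p) → R) : Prop :=
  (∀ S : Finset (Fin p), S.card ≤ 1 → c S = 0) ∧ c univ = 0

/-- The degree of `∑ c S • δ_S` on the F-curve of type `(A, B, C)`. -/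
def fdegree (c : Finset (Fin p) → R) (A B C : Finset (Fin p)) : R :=
  c (A ∪ B) + c (A ∪ C) + c (B ∪ C) - c A - c B - c C - c (A ∪ B ∪ C)

/-- Linear equivalence: the difference is a combination, with coefficients `a x y` whose sum is
zero (take `S = univ`), of the sums `∑ δ_S` over the `S` containing `x` and `y` (these sums are all
linearly equivalent to `ψ_∞`, and their differences generate the relations, by Keel's theorem). -/
def LinEquiv (c u : Finset (Fin p) → R) : Prop :=
  ∃ a : Fin p → Fin p → R, ∀ S : Finset (Fin p),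
    c S - u S = ∑ y ∈ S, ∑ x ∈ S.filter (fun x : Fin p => x < y), a x y

/-- The boundary divisors `δ_S`, `S ∈ F`, have a common point only if this holds. -/
def Laminar (F : Finset (Finset (Fin p))) : Prop :=
  ∀ M ∈ F, ∀ N ∈ F, M ⊆ N ∨ N ⊆ M ∨ Disjoint M N

/-- The `B i` are disjoint nonempty sets of marks different from `∞`. -/
def IsStratum (B : Fin q → Finset (Fin p)) : Prop :=
  (∀ i, (B i).Nonempty) ∧ ∀ i j, i ≠ j → Disjoint (B i) (B j)

/-- `m S` are the intersection numbers with `δ_S` of a curve in `M̄_{0,q+1}` that is not contained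
in the boundary, and `d` is its degree on `ψ_∞`: all `m S ≥ 0`, and for all marks `i ≠ j` different
from `∞` we have `ψ_∞ = ∑ δ_S`, the sum over the `S` containing `i` and `j`. -/
def IsCurve (m : Finset (Fin q) → ℕ) (d : ℕ) : Prop :=
  (∀ S : Finset (Fin q), S.card ≤ 1 → m S = 0) ∧ m univ = 0 ∧
    ∀ i j : Fin q, i ≠ j →
      ∑ S ∈ univ.filter (fun S : Finset (Fin q) => i ∈ S ∧ j ∈ S), m S = d

/-- The degree of `∑ c S • δ_S` on the curve with the numbers `m`, `d` in the factor `M̄_{0,q+1}` of
a stratum given by the `B i`; the degree of `ψ_i` on the curve is `∑ m S - d`, the sum over the `S`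
containing `i`. -/
def degree (c : Finset (Fin p) → R) (B : Fin q → Finset (Fin p)) (m : Finset (Fin q) → ℕ)
    (d : ℕ) : R :=
  ∑ S ∈ univ.filter (fun S : Finset (Fin q) => 2 ≤ S.card ∧ S.card < q), c (S.biUnion B) * m S -
    ∑ i, c (B i) * (∑ S ∈ univ.filter (fun S : Finset (Fin q) => i ∈ S), (m S : R) - d) -
    c (univ.biUnion B) * d

/-- The degree of the log canonical divisor `K + Δ = ∑ ψ_i - Δ` on the curve. -/
def logDegree (m : Finset (Fin q) → ℕ) (d : ℕ) : R :=
  ∑ S : Finset (Fin q), (m S : R) * ((S.card : R) - 1) - d * ((q : R) - 1)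

/-- The divisor `∑ (|S| choose 2) (p - |S|) • δ_S`. -/
def model (S : Finset (Fin p)) : R := (S.card.choose 2 : R) * ((p : R) - S.card)

variable [LinearOrder R]

/-- The degree on the F-curves of type `(A, {x}, {y})` does not decrease when a mark `z` is moved
from the part of `∞` to `A` (`A` may be empty, and then the first degree is zero). -/
def IsMonotone (c : Finset (Fin p) → R) : Prop :=
  ∀ (A : Finset (Fin p)) (x y z : Fin p), x ∉ A → y ∉ A → z ∉ A → x ≠ y → x ≠ z → y ≠ z →
    fdegree c A {x} {y} ≤ fdegree c (insert z A) {x} {y}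

/-- `A` contains a mark smaller than all the marks of `B`. -/
def Below (A B : Finset (Fin p)) : Prop := ∃ a ∈ A, ∀ b ∈ B, a < b

/-- The degree on the F-curves of type `(A, B, C)` does not decrease when `X` is moved from the
part of `∞` to `A`, if `X` contains a mark smaller than all the marks of `B ∪ C`, and `A` too or `A`
is empty (in this case the first degree is zero). -/
def IsOrderMonotone (c : Finset (Fin p) → R) : Prop :=
  ∀ A X B C : Finset (Fin p), Disjoint A X → Disjoint (A ∪ X) B → Disjoint (A ∪ X) C →
    Disjoint B C → B.Nonempty → C.Nonempty → (A = ∅ ∨ Below A (B ∪ C)) → Below X (B ∪ C) →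
    fdegree c A B C ≤ fdegree c (A ∪ X) B C

/-- Positive degree on all F-curves. -/
def FAmple (c : Finset (Fin p) → R) : Prop :=
  ∀ A B C : Finset (Fin p), A.Nonempty → B.Nonempty → C.Nonempty → Disjoint A B →
    Disjoint A C → Disjoint B C → 0 < fdegree c A B C

end

section

variable {R : Type} [CommRing R] [LinearOrder R] [IsStrictOrderedRing R] {p : ℕ}

theorem min_degree (c : Finset (Fin p) → R) (h : FAmple c) : ∃ ε : R, 0 < ε ∧
    ∀ A B C : Finset (Fin p), A.Nonempty → B.Nonempty → C.Nonempty → Disjoint A B →
      Disjoint A C → Disjoint B C → ε ≤ fdegree c A B C := by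
  classical
  obtain ⟨T, hT⟩ : ∃ T : Finset (Finset (Fin p) × Finset (Fin p) × Finset (Fin p)),
      ∀ t, t ∈ T ↔ t.1.Nonempty ∧ t.2.1.Nonempty ∧ t.2.2.Nonempty ∧ Disjoint t.1 t.2.1 ∧
        Disjoint t.1 t.2.2 ∧ Disjoint t.2.1 t.2.2 :=
    ⟨univ.filter (fun t : Finset (Fin p) × Finset (Fin p) × Finset (Fin p) =>
      t.1.Nonempty ∧ t.2.1.Nonempty ∧ t.2.2.Nonempty ∧ Disjoint t.1 t.2.1 ∧
        Disjoint t.1 t.2.2 ∧ Disjoint t.2.1 t.2.2), fun t => by rw [mem_filter]; simp⟩
  rcases T.eq_empty_or_nonempty with h1 | h1
  · refine ⟨1, one_pos, fun A B C hA hB hC h2 h3 h4 => ?_⟩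
    have h5 := (hT (A, B, C)).2 ⟨hA, hB, hC, h2, h3, h4⟩
    rw [h1] at h5
    exact absurd h5 (notMem_empty _)
  · obtain ⟨t, ht, hmin⟩ := exists_min_image T (fun t => fdegree c t.1 t.2.1 t.2.2) h1
    refine ⟨fdegree c t.1 t.2.1 t.2.2, ?_, fun A B C hA hB hC h2 h3 h4 =>
      hmin (A, B, C) ((hT (A, B, C)).2 ⟨hA, hB, hC, h2, h3, h4⟩)⟩
    have h2 := (hT t).1 ht
    exact h _ _ _ h2.1 h2.2.1 h2.2.2.1 h2.2.2.2.1 h2.2.2.2.2.1 h2.2.2.2.2.2

end

/-- Let `D = ∑ c S • δ_S` be a divisor on `M̄_{0,p+1}` with coefficients in `R`, for instance in the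
integers, the rational or the real numbers.

1. If `D` is `IsMonotone` then for every family `F` of pairwise nested or disjoint sets `D` is linearly
   equivalent to an effective sum of boundary divisors `δ_S`, `S ∉ F`.  So `D` is base point free.
2. If `D` is `IsOrderMonotone` then `D` has nonnegative degree on every curve, so it is nef.
3. If `D` is `IsOrderMonotone` and `FAmple`, there is an `ε > 0` such that the degree of `D` is at
   least `ε` times the degree of `K + Δ` on all curves, and the degree of `K + Δ` is positive on all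
   nonzero curve classes.
4. `IsMonotone` implies `IsOrderMonotone`.
5. The monotone divisors form a cone of full dimension: for every `D`, `D + t • model` is monotone if
   `t` is large. -/
theorem result (R : Type) [CommRing R] [LinearOrder R] [IsStrictOrderedRing R] (p : ℕ)
    (c : Finset (Fin p) → R) (hc : IsDivisor c) :
    (IsMonotone c → ∀ F : Finset (Finset (Fin p)), Laminar F →
      ∃ u : Finset (Fin p) → R, IsDivisor u ∧ (∀ S, 0 ≤ u S) ∧ (∀ S ∈ F, u S = 0) ∧
        LinEquiv c u) ∧
    (IsOrderMonotone c → ∀ (q : ℕ) (B : Fin q → Finset (Fin p)) (m : Finset (Fin q) → ℕ) (d : ℕ),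
      IsStratum B → IsCurve m d → 0 ≤ degree c B m d) ∧
    (IsOrderMonotone c → FAmple c → ∃ ε : R, 0 < ε ∧
      ∀ (q : ℕ) (B : Fin q → Finset (Fin p)) (m : Finset (Fin q) → ℕ) (d : ℕ), 3 ≤ q →
        IsStratum B → IsCurve m d → ε * logDegree m d ≤ degree c B m d ∧
          ((∃ S, m S ≠ 0) → (0 : R) < logDegree m d)) ∧
    (IsMonotone c → IsOrderMonotone c) ∧
    IsDivisor (model : Finset (Fin p) → R) ∧
      ∃ t₀ : R, ∀ t : R, t₀ ≤ t → IsMonotone (fun S => c S + t * model S) := by
  refine ⟨fun h F hF => ?_, fun h q B m d hB hm => ?_, fun h hF => ?_, fun h => ?_, ⟨?_, ?_⟩, ?_⟩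
  · obtain ⟨u, h1, h2, h3, h4, a, ha⟩ := R647.FC.semi c hc.1 hc.2 (fun x y hxy A z hx hy hz hxz hyz => by
      have h1 := h A x y z hx hy hz hxy hxz hyz
      have hI : ∀ (E : Finset (Fin p)) (w : Fin p), E ∪ {w} = insert w E := fun E w => by
        rw [union_comm, ← insert_eq]
      unfold fdegree at h1
      simp only [hI] at h1
      unfold R647.FC.h
      linarith) F hF
    exact ⟨u, ⟨h1, h2⟩, h3, h4, a, ha⟩
  · exact R647.FC.nef (hc.1 ∅ (by simp)) h hB.1 hB.2 hm
  · obtain ⟨ε, hε, h1⟩ := min_degree c hF
    refine ⟨ε, hε, fun q B m d hq hB hm => ⟨?_, fun hS => R647.FC.lc_pos hm hS⟩⟩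
    exact R647.FC.amp (hc.1 ∅ (by simp)) h hε.le h1 (by omega) hB.1 hB.2 hm
  · exact R647.FC.mo_om h
  · intro S hS
    unfold model
    rw [Nat.choose_eq_zero_of_lt (by omega)]
    simp
  · unfold model
    rw [card_univ, Fintype.card_fin, sub_self, mul_zero]
  · exact R647.FC.full c

end Pool.Agent.Results.MP_23e236_ag.MonotoneDegrees
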