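import Pool.Agent.R647.FQ.Eff
import Pool.Agent.R647.AF.Fin

set_option autoImplicit false

/-!
# The F-conjecture for the divisors with nonnegative signed sums

The marks are `0, …, p-1` (the type `Fin p`) and `∞`, so `n = p + 1`.  The boundary divisors of
`M̄_{0,n}` are the `δ_S`, `S` a set of marks different from `∞` with `2 ≤ |S| < p` (`δ_S`
separates `S` from the other marks).  The F-curve of type `(A, B, C)`, for disjoint nonempty sets
`A, B, C` of marks different from `∞`, is the one of the partition `A, B, C`, (the rest, with `∞`).

The signed sum of `D = ∑ c S • δ_S` for a set `K` of marks different from `∞` is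
`∑ (-1)^|K ∩ S| c S`.  For `|K| ≥ 3` it depends only on the class of `D`, and these
`2^(n-1) - C(n,2) - 1` numbers are coordinates on the Picard group (up to a power of two they are
the coordinates in the basis of the first Chern classes of the bundles of conformal blocks of
`sl_2` of level one; the basis element of an even set `I` of marks, `|I| ≥ 4`, has degree one on the
F-curves all whose four parts meet `I` in an odd number of marks, and zero on the others; the
corresponding `K` is `I` without `∞`).

Theorem.  If `D` has nonnegative degree on the F-curves, and its signed sums for the sets `K` with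
at least five elements are nonnegative, then `D` is nef, and linearly equivalent to an effective sum
of boundary divisors.  There is no condition on the `C(n,4)` coordinates with `|K| = 3, 4`.  If the
degrees on the F-curves are at least `ε` then the degree on every curve is at least `4 ε / (3 p)`
times the degree of the ample divisor `K + Δ`, so `D` is ample for `ε > 0`.

In particular the F-conjecture holds for all the divisors `∑ w I • π_I^* O(1)`, where `I` runs over
the sets of four marks, `π_I : M̄_{0,n} → M̄_{0,I} = ℙ¹` is the forgetful map, and the `w I` are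
arbitrary real numbers: their signed sums with `|K| ≥ 5` are zero.  And the divisors of the theorem
form a cone of full dimension: for every `D` it contains `D + t (K + Δ)` for large `t`.

Proof.  On a stratum, for a set `X` of marks (of the factor) without `∞`, take the average of the
degrees of `D` on the F-curves `(Y, X - Y, U, rest)`, `Y` a random subset of `X` and `U` a random
subset of the complement.  In terms of the coordinates, it is the sum of the coordinates of the sets
`I` which meet both `X` and its complement in an even positive number of marks.  The gauge that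
spreads the coordinate of `I` evenly over the pairs of elements of `I` gives a representative which
vanishes on the singletons, and whose coefficients are at least `4 / 3` of the average, with equality
for `|I| = 4`.

The starting files on this problem restrict the curves; `MonotoneDegrees` treats another cone of
divisors, and `PinchedDegrees` has an error term.

Curves.  An irreducible curve in `M̄_{0,n}` meets the interior of a unique stratum, and its class is
the sum of its projections to the factors `M̄_{0,q+1}` of the stratum.  Such a factor belongs to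
disjoint nonempty sets `B 0, …, B (q-1)` of marks different from `∞` (the marks behind the nodes and
marks of the component of the stable curve; the last one leads to `∞`).  On the factor the
projection of the curve has the intersection numbers `m S ≥ 0` with the boundary divisors
`δ_S`, `2 ≤ |S| < q`, the degree `d` on `ψ_∞`, and it meets the interior.  The divisor `δ_T` of
`M̄_{0,n}` restricts to `δ_S` if `T` is the union of the `B i`, `i ∈ S`, to `-ψ_i` if `T = B i`, and
to `-ψ_∞` if `T` is the union of all `B i`.
-/

namespace Pool.Agent.Results.MP_23e236_ag.SignedSums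

open Finset

variable {p q : ℕ}

/-- `c` is a family of coefficients: it stands for the divisor `∑ c S • δ_S`, the sum over the
`S` with `2 ≤ |S| < p`; it vanishes on the sets that give no boundary divisor. -/
def IsDivisor (c : Finset (Fin p) → ℝ) : Prop :=
  (∀ S : Finset (Fin p), S.card ≤ 1 → c S = 0) ∧ c univ = 0

/-- The degree of `∑ c S • δ_S` on the F-curve of type `(A, B, C)`. -/
def fdegree (c : Finset (Fin p) → ℝ) (A B C : Finset (Fin p)) : ℝ :=
  c (A ∪ B) + c (A ∪ C) + c (B ∪ C) - c A - c B - c C - c (A ∪ B ∪ C)

/-- The degree on every F-curve is at least `ε`. -/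
def FMin (ε : ℝ) (c : Finset (Fin p) → ℝ) : Prop :=
  ∀ A B C : Finset (Fin p), A.Nonempty → B.Nonempty → C.Nonempty → Disjoint A B →
    Disjoint A C → Disjoint B C → ε ≤ fdegree c A B C

/-- The signed sum of the coefficients for the set `K` of marks. -/
noncomputable def signedSum (c : Finset (Fin p) → ℝ) (K : Finset (Fin p)) : ℝ :=
  ∑ S : Finset (Fin p), (-1) ^ (K ∩ S).card * c S

/-- Linear equivalence: the difference is a combination, with coefficients `w x y` whose sum is
zero (take `S = univ`), of the sums `∑ δ_S` over the `S` containing `x` and `y` (these sums are all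
linearly equivalent to `ψ_∞`, and their differences generate the relations, by Keel's theorem). -/
def LinEquiv (c u : Finset (Fin p) → ℝ) : Prop :=
  ∃ w : Fin p → Fin p → ℝ, ∀ S : Finset (Fin p),
    c S - u S = ∑ y ∈ S, ∑ x ∈ S.filter (fun x : Fin p => x < y), w x y

/-- The log canonical divisor `K + Δ`: the coefficient of `δ_S` is `j (n - j) / (n - 1) - 1`, where
`j = |S|` and `n = p + 1`. -/
noncomputable def logCanonical (S : Finset (Fin p)) : ℝ :=
  if S = ∅ then 0 else ((S.card : ℝ) - 1) * ((p : ℝ) - S.card) / p

/-- The sum over the sets `I` of four marks of `w I` times the pullback, under the forgetful map to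
`M̄_{0,I} = ℙ¹`, of the sum of its three boundary points: `δ_S` occurs in the pullback if two
elements of `I` are in `S`.  So this is `3 ∑ w I • π_I^* O(1)`. -/
noncomputable def cross (w : Finset (Option (Fin p)) → ℝ) (S : Finset (Fin p)) : ℝ :=
  ∑ I ∈ powersetCard 4 (univ : Finset (Option (Fin p))),
    if (I ∩ S.map Function.Embedding.some).card = 2 then w I else 0

/-- The `B i` are disjoint nonempty sets of marks different from `∞`. -/
def IsStratum (B : Fin q → Finset (Fin p)) : Prop :=
  (∀ i, (B i).Nonempty) ∧ ∀ i j, i ≠ j → Disjoint (B i) (B j)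

/-- `m S` are the intersection numbers with `δ_S` of a curve in `M̄_{0,q+1}` that is not contained
in the boundary, and `d` is its degree on `ψ_∞`: all `m S ≥ 0`, and for all marks `i ≠ j` different
from `∞` we have `ψ_∞ = ∑ δ_S`, the sum over the `S` containing `i` and `j`. -/
def IsCurve (m : Finset (Fin q) → ℕ) (d : ℕ) : Prop :=
  (∀ S : Finset (Fin q), S.card ≤ 1 → m S = 0) ∧ m univ = 0 ∧
    ∀ i j : Fin q, i ≠ j →
      ∑ S ∈ univ.filter (fun S : Finset (Fin q) => i ∈ S ∧ j ∈ S), m S = d

/-- The degree of `∑ c S • δ_S` on the curve with the numbers `m`, `d` in the factor `M̄_{0,q+1}` of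
a stratum given by the `B i`; the degree of `ψ_i` on the curve is `∑ m S - d`, the sum over the `S`
containing `i`. -/
def degree (c : Finset (Fin p) → ℝ) (B : Fin q → Finset (Fin p)) (m : Finset (Fin q) → ℕ)
    (d : ℕ) : ℝ :=
  ∑ S ∈ univ.filter (fun S : Finset (Fin q) => 2 ≤ S.card ∧ S.card < q), c (S.biUnion B) * m S -
    ∑ i, c (B i) * (∑ S ∈ univ.filter (fun S : Finset (Fin q) => i ∈ S), (m S : ℝ) - d) -
    c (univ.biUnion B) * d

theorem logCanonical_divisor : IsDivisor (logCanonical (p := p)) := by
  constructor
  · intro S hS
    unfold logCanonical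
    split_ifs with h
    · rfl
    · have : S.card = 1 := by
        have := card_pos.2 (nonempty_iff_ne_empty.2 h)
        omega
      rw [this]
      simp
  · unfold logCanonical
    rw [card_univ, Fintype.card_fin]
    simp

theorem logCanonical_fdegree {A B C : Finset (Fin p)} (hA : A.Nonempty) (hB : B.Nonempty)
    (hC : C.Nonempty) (h1 : Disjoint A B) (h2 : Disjoint A C) (h3 : Disjoint B C) :
    fdegree logCanonical A B C = 1 := by
  have hp : 1 ≤ p := by
    have e1 := card_pos.2 hA
    have e2 := card_le_univ A
    rw [Fintype.card_fin] at e2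
    omega
  have hp' : (p : ℝ) ≠ 0 := by
    have : (1 : ℝ) ≤ p := by exact_mod_cast hp
    linarith
  have hn : ∀ X : Finset (Fin p), X.Nonempty →
      logCanonical X = ((X.card : ℝ) - 1) * ((p : ℝ) - X.card) / p := by
    intro X hX
    unfold logCanonical
    rw [if_neg (nonempty_iff_ne_empty.1 hX)]
  unfold fdegree
  rw [hn _ hA, hn _ hB, hn _ hC, hn _ (hA.mono subset_union_left),
    hn _ (hA.mono subset_union_left), hn _ (hB.mono subset_union_left),
    hn _ (hA.mono (subset_union_left.trans subset_union_left)),
    card_union_of_disjoint (disjoint_union_left.2 ⟨h2, h3⟩), card_union_of_disjoint h1,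
    card_union_of_disjoint h2, card_union_of_disjoint h3]
  push_cast
  field_simp
  ring

theorem logCanonical_signedSum (hp : 1 ≤ p) {K : Finset (Fin p)} (hK : 3 ≤ K.card) :
    signedSum logCanonical K = 1 := by
  have hp' : (p : ℝ) ≠ 0 := by
    have : (1 : ℝ) ≤ p := by exact_mod_cast hp
    linarith
  have e : ∀ S : Finset (Fin p), (-1 : ℝ) ^ (K ∩ S).card * logCanonical S =
      (R647.FQ.chi K S * (((S.card : ℝ) - 1) * ((p : ℝ) - S.card))) / p +
        if S = ∅ then 1 else 0 := by
    intro S
    unfold logCanonical R647.FQ.chi
    split_ifs with h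
    · rw [h]
      simp only [inter_empty, card_empty, pow_zero, Nat.cast_zero]
      field_simp
      ring
    · rw [add_zero]
      ring
  unfold signedSum
  rw [sum_congr rfl fun S _ => e S, sum_add_distrib, ← sum_div, R647.FQ.signed_log hK,
    sum_ite_eq', if_pos (mem_univ _), zero_div, zero_add]

theorem size {B : Fin q → Finset (Fin p)} (h : IsStratum B) : q ≤ p := by
  have e1 : ∑ i : Fin q, (B i).card ≤ p := by
    rw [← card_biUnion fun i _ j _ hij => h.2 i j hij]
    have := card_le_univ (univ.biUnion B)
    rwa [Fintype.card_fin] at this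
  have e2 : ∑ _i : Fin q, 1 ≤ ∑ i : Fin q, (B i).card :=
    sum_le_sum fun i _ => card_pos.2 (h.1 i)
  rw [sum_const, card_univ, Fintype.card_fin, smul_eq_mul, mul_one] at e2
  omega

theorem log_degree {B : Fin q → Finset (Fin p)} {m : Finset (Fin q) → ℕ} {d : ℕ} (hq : 3 ≤ q)
    (hB : IsStratum B) (hm : IsCurve m d) : degree logCanonical B m d =
      ∑ S : Finset (Fin q), (m S : ℝ) * R647.AF.kap (S.map Function.Embedding.some) := by
  have hp := size hB
  have hd := logCanonical_divisor (p := p)
  have h1 := R647.AF.nef_stratum (c := logCanonical) (a := 1) (b := 1) (hd.1 ∅ (by simp)) le_rfl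
    (fun A B C hA hB hC k1 k2 k3 => by
      have := logCanonical_fdegree hA hB hC k1 k2 k3
      unfold fdegree at this
      unfold R647.AF.T
      constructor <;> linarith) hq hB.1 hB.2 hm.1 hm.2.1 hm.2.2
  have h2 := R647.AF.nef_stratum (c := fun S => - logCanonical S) (a := -1) (b := -1)
    (by rw [hd.1 ∅ (by simp), neg_zero]) le_rfl
    (fun A B C hA hB hC k1 k2 k3 => by
      have := logCanonical_fdegree hA hB hC k1 k2 k3
      unfold fdegree at this
      unfold R647.AF.T
      constructor <;> linarith) hq hB.1 hB.2 hm.1 hm.2.1 hm.2.2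
  simp only [neg_mul, sum_neg_distrib] at h2
  rw [R647.AF.deg_kap (by omega) hm.1 hm.2.2]
  unfold degree
  simp only [sub_self, mul_zero, sub_zero, one_mul] at h1 h2
  apply le_antisymm
  · linarith
  · linarith

theorem log_degree_le {B : Fin q → Finset (Fin p)} {m : Finset (Fin q) → ℕ} {d : ℕ} (hq : 3 ≤ q)
    (hB : IsStratum B) (hm : IsCurve m d) : 4 * degree logCanonical B m d ≤
      p * ∑ S : Finset (Fin q), (m S : ℝ) := by
  rw [log_degree hq hB hm, mul_sum, mul_sum]
  refine sum_le_sum fun S _ => ?_
  by_cases hS : m S = 0
  · rw [hS]; simp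
  have hc : 2 ≤ S.card := by
    by_contra hn
    exact hS (hm.1 S (by omega))
  have hne : (S.map Function.Embedding.some).Nonempty := by
    rw [map_nonempty]
    exact card_pos.1 (by omega)
  have hnu : S.map Function.Embedding.some ≠ univ := by
    intro h
    have : (none : Option (Fin q)) ∈ S.map Function.Embedding.some := by rw [h]; exact mem_univ _
    simp at this
  have hk : 4 * R647.AF.kap (S.map Function.Embedding.some) ≤ p := by
    have hqp : (q : ℝ) ≤ p := by exact_mod_cast size hB
    have hq3 : (3 : ℝ) ≤ q := by exact_mod_cast hq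
    refine le_trans ?_ hqp
    rw [R647.AF.kap_of hne hnu, card_map, Fintype.card_option, Fintype.card_fin]
    push_cast
    rw [add_sub_cancel_right]
    have hq0 : (0 : ℝ) < q := by linarith
    have : 4 * ((S.card : ℝ) * ((q : ℝ) + 1 - S.card) / q - 1) =
        4 * ((S.card : ℝ) * ((q : ℝ) + 1 - S.card) - q) / q := by
      field_simp
    rw [this, div_le_iff₀ hq0]
    nlinarith [sq_nonneg ((q : ℝ) + 1 - 2 * S.card)]
  have hm0 : (0 : ℝ) ≤ m S := Nat.cast_nonneg _
  nlinarith [mul_le_mul_of_nonneg_left hk hm0]

theorem cross_divisor (w : Finset (Option (Fin p)) → ℝ) : IsDivisor (cross w) := by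
  constructor
  · intro S hS
    unfold cross
    refine sum_eq_zero fun I _ => ?_
    rw [if_neg]
    have := card_le_card (inter_subset_right (s₁ := I) (s₂ := S.map Function.Embedding.some))
    rw [card_map] at this
    omega
  · unfold cross
    refine sum_eq_zero fun I hI => ?_
    rw [if_neg]
    have h1 := (mem_powersetCard.1 hI).2
    have h2 : I ⊆ insert none (I ∩ (univ : Finset (Fin p)).map Function.Embedding.some) := by
      intro x hx
      cases x with
      | none => exact mem_insert_self _ _
      | some y => exact mem_insert_of_mem (mem_inter.2 ⟨hx, mem_map_of_mem _ (mem_univ _)⟩)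
    have h3 := (card_le_card h2).trans (card_insert_le _ _)
    omega

theorem cross_signedSum (w : Finset (Option (Fin p)) → ℝ) {K : Finset (Fin p)}
    (hK : 5 ≤ K.card) : signedSum (cross w) K = 0 := by
  unfold signedSum cross
  simp only [mul_sum]
  rw [sum_comm]
  refine sum_eq_zero fun I hI => ?_
  have h1 := (mem_powersetCard.1 hI).2
  obtain ⟨v, hv, hv'⟩ : ∃ v ∈ K, some v ∉ I := by
    by_contra hn
    push Not at hn
    have h2 : K.map Function.Embedding.some ⊆ I := by
      intro x hx
      obtain ⟨y, hy, rfl⟩ := mem_map.1 hx
      exact hn y hy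
    have := card_le_card h2
    rw [card_map] at this
    omega
  refine R647.FQ.toggle hv (F := fun S =>
    if (I ∩ S.map Function.Embedding.some).card = 2 then w I else 0) fun S _ => ?_
  have e : I ∩ (insert v S).map Function.Embedding.some =
      I ∩ S.map Function.Embedding.some := by
    ext x
    simp only [mem_inter, mem_map, mem_insert, Function.Embedding.some_apply]
    constructor
    · rintro ⟨hx, y, (rfl | hy), rfl⟩
      · exact absurd hx hv'
      · exact ⟨hx, y, hy, rfl⟩
    · rintro ⟨hx, y, hy, rfl⟩
      exact ⟨hx, y, Or.inr hy, rfl⟩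
  show (if (I ∩ (insert v S).map Function.Embedding.some).card = 2 then w I else 0) = _
  rw [e]

theorem four_parts {a b c : ℕ} (h : a + b + c ≤ 4) (x : ℝ) :
    (if a + b = 2 then x else 0) + (if a + c = 2 then x else 0) + (if b + c = 2 then x else 0) -
      (if a = 2 then x else 0) - (if b = 2 then x else 0) - (if c = 2 then x else 0) -
      (if a + b + c = 2 then x else 0) = 3 * if a = 1 ∧ b = 1 ∧ c = 1 then x else 0 := by
  have h1 : a ≤ 4 := by omega
  have h2 : b ≤ 4 := by omega
  have h3 : c ≤ 4 := by omega
  interval_cases a <;> interval_cases b <;> interval_cases c <;>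
    first | omega | (norm_num; try ring)

theorem cross_fdegree (w : Finset (Option (Fin p)) → ℝ) {A B C : Finset (Fin p)}
    (h1 : Disjoint A B) (h2 : Disjoint A C) (h3 : Disjoint B C) :
    fdegree (cross w) A B C = 3 * ∑ I ∈ powersetCard 4 (univ : Finset (Option (Fin p))),
      if (I ∩ A.map Function.Embedding.some).card = 1 ∧
        (I ∩ B.map Function.Embedding.some).card = 1 ∧
        (I ∩ C.map Function.Embedding.some).card = 1 then w I else 0 := by
  unfold fdegree cross
  rw [← sum_add_distrib, ← sum_add_distrib, ← sum_sub_distrib, ← sum_sub_distrib,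
    ← sum_sub_distrib, ← sum_sub_distrib, mul_sum]
  refine sum_congr rfl fun I hI => ?_
  have hI4 := (mem_powersetCard.1 hI).2
  have hd : ∀ X Y : Finset (Fin p), Disjoint X Y →
      (I ∩ (X ∪ Y).map Function.Embedding.some).card =
      (I ∩ X.map Function.Embedding.some).card + (I ∩ Y.map Function.Embedding.some).card := by
    intro X Y hXY
    rw [map_union, inter_union_distrib_left, card_union_of_disjoint]
    exact ((disjoint_map _).2 hXY).mono inter_subset_right inter_subset_right
  have hle : (I ∩ A.map Function.Embedding.some).card + (I ∩ B.map Function.Embedding.some).card +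
      (I ∩ C.map Function.Embedding.some).card ≤ 4 := by
    rw [← hd A B h1, ← hd (A ∪ B) C (disjoint_union_left.2 ⟨h2, h3⟩), ← hI4]
    exact card_le_card inter_subset_left
  rw [hd (A ∪ B) C (disjoint_union_left.2 ⟨h2, h3⟩), hd A B h1, hd A C h2, hd B C h3]
  exact four_parts hle (w I)

theorem large {c : Finset (Fin p) → ℝ} (hc : IsDivisor c) : ∃ t₀ : ℝ, ∀ t : ℝ, t₀ ≤ t →
    IsDivisor (fun S => c S + t * logCanonical S) ∧
    FMin 0 (fun S => c S + t * logCanonical S) ∧
      ∀ K : Finset (Fin p), 5 ≤ K.card → 0 ≤ signedSum (fun S => c S + t * logCanonical S) K := by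
  refine ⟨7 * ∑ S : Finset (Fin p), |c S|, fun t ht => ⟨⟨fun S hS => ?_, ?_⟩, ?_, ?_⟩⟩
  · show c S + t * logCanonical S = 0
    rw [hc.1 S hS, logCanonical_divisor.1 S hS]
    ring
  · show c univ + t * logCanonical univ = 0
    rw [hc.2, logCanonical_divisor.2]
    ring
  · intro A B C hA hB hC h1 h2 h3
    have hb : ∀ X : Finset (Fin p), |c X| ≤ ∑ S : Finset (Fin p), |c S| := fun X =>
      single_le_sum (f := fun S => |c S|) (fun S _ => abs_nonneg _) (mem_univ X)
    have hl := logCanonical_fdegree hA hB hC h1 h2 h3
    have e : fdegree (fun S => c S + t * logCanonical S) A B C =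
        fdegree c A B C + t * fdegree logCanonical A B C := by
      unfold fdegree
      ring
    rw [e, hl]
    unfold fdegree
    have b1 := abs_le.1 (hb (A ∪ B))
    have b2 := abs_le.1 (hb (A ∪ C))
    have b3 := abs_le.1 (hb (B ∪ C))
    have b4 := abs_le.1 (hb A)
    have b5 := abs_le.1 (hb B)
    have b6 := abs_le.1 (hb C)
    have b7 := abs_le.1 (hb (A ∪ B ∪ C))
    linarith [b1.1, b2.1, b3.1, b4.2, b5.2, b6.2, b7.2]
  · intro K hK
    have hp : 1 ≤ p := by
      have := card_le_univ K
      rw [Fintype.card_fin] at this
      omega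
    have e : signedSum (fun S => c S + t * logCanonical S) K =
        signedSum c K + t * signedSum logCanonical K := by
      unfold signedSum
      rw [mul_sum, ← sum_add_distrib]
      exact sum_congr rfl fun S _ => by ring
    rw [e, logCanonical_signedSum hp (by omega)]
    have h1 : |signedSum c K| ≤ ∑ S : Finset (Fin p), |c S| := by
      unfold signedSum
      refine (abs_sum_le_sum_abs _ _).trans (sum_le_sum fun S _ => ?_)
      rw [abs_mul, abs_pow, abs_neg, abs_one, one_pow, one_mul]
    have h2 : (0 : ℝ) ≤ ∑ S : Finset (Fin p), |c S| := sum_nonneg fun S _ => abs_nonneg _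
    have h3 := (abs_le.1 h1).1
    linarith

/-- 1. Let `D = ∑ c S • δ_S` be a divisor on `M̄_{0,p+1}` with real coefficients, whose degree on
   every F-curve is at least `ε ≥ 0`, and whose signed sums for the sets `K` with at least five
   elements are nonnegative.  Then `D` is linearly equivalent to `∑ u S • δ_S` with `u S ≥ ε / 3`
   for all `δ_S`; and on every curve, in every stratum, the degree of `D` is nonnegative, and at
   least `4 ε / (3 p)` times the degree of `K + Δ`.
2. The divisors `∑ w I • 3 π_I^* O(1)` have zero signed sums for `|K| ≥ 5`; their degree on the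
   F-curve of type `(A, B, C)` is three times the sum of the `w I` over the `I` that meet all the
   four parts.
3. For every divisor `D`, the divisor `D + t (K + Δ)` satisfies the conditions of 1 for large `t`.
4. The signed sums for `|K| ≥ 3` are the same for linearly equivalent divisors. -/
theorem result (p : ℕ) :
    (∀ (c : Finset (Fin p) → ℝ) (ε : ℝ), IsDivisor c → 0 ≤ ε → FMin ε c →
      (∀ K : Finset (Fin p), 5 ≤ K.card → 0 ≤ signedSum c K) →
      (∃ u : Finset (Fin p) → ℝ, IsDivisor u ∧ LinEquiv c u ∧
        ∀ S : Finset (Fin p), 2 ≤ S.card → S.card < p → ε / 3 ≤ u S) ∧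
      ∀ (q : ℕ) (B : Fin q → Finset (Fin p)) (m : Finset (Fin q) → ℕ) (d : ℕ), 3 ≤ q →
        IsStratum B → IsCurve m d → 0 ≤ degree c B m d ∧
          4 * ε * degree logCanonical B m d ≤ 3 * p * degree c B m d) ∧
    (∀ w : Finset (Option (Fin p)) → ℝ, IsDivisor (cross w) ∧
      (∀ K : Finset (Fin p), 5 ≤ K.card → signedSum (cross w) K = 0) ∧
      ∀ A B C : Finset (Fin p), Disjoint A B → Disjoint A C → Disjoint B C →
        fdegree (cross w) A B C = 3 * ∑ I ∈ powersetCard 4 (univ : Finset (Option (Fin p))),
          if (I ∩ A.map Function.Embedding.some).card = 1 ∧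
            (I ∩ B.map Function.Embedding.some).card = 1 ∧
            (I ∩ C.map Function.Embedding.some).card = 1 then w I else 0) ∧
    (∀ c : Finset (Fin p) → ℝ, IsDivisor c → ∃ t₀ : ℝ, ∀ t : ℝ, t₀ ≤ t →
      IsDivisor (fun S => c S + t * logCanonical S) ∧
      FMin 0 (fun S => c S + t * logCanonical S) ∧
        ∀ K : Finset (Fin p), 5 ≤ K.card →
          0 ≤ signedSum (fun S => c S + t * logCanonical S) K) ∧
    (∀ c u : Finset (Fin p) → ℝ, LinEquiv c u → ∀ K : Finset (Fin p), 3 ≤ K.card →
      signedSum c K = signedSum u K) := by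
  refine ⟨fun c ε hc hε hF hw => ⟨?_, ?_⟩, fun w => ⟨cross_divisor w, fun K hK =>
    cross_signedSum w hK, fun A B C h1 h2 h3 => cross_fdegree w h1 h2 h3⟩, fun c hc => large hc, ?_⟩
  · obtain ⟨u, h1, h2, h3, w, hw'⟩ := R647.FQ.eff hc.1 hε hF hw
    exact ⟨u, ⟨h1, h2⟩, ⟨w, hw'⟩, h3⟩
  · intro q B m d hq hB hm
    have h1 : ε / 3 * ∑ S : Finset (Fin q), (m S : ℝ) ≤ degree c B m d :=
      R647.FQ.nef (hc.1 ∅ (by simp)) hε hF hw hB.1 hB.2 hm.1 hm.2.1 hm.2.2
    have h2 := log_degree_le hq hB hm
    have h3 : (0 : ℝ) ≤ ∑ S : Finset (Fin q), (m S : ℝ) :=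
      sum_nonneg fun S _ => Nat.cast_nonneg _
    constructor
    · refine le_trans ?_ h1
      positivity
    · have hp0 : (0 : ℝ) ≤ p := Nat.cast_nonneg p
      have h4 := mul_le_mul_of_nonneg_left h2 hε
      have h5 := mul_le_mul_of_nonneg_left h1 hp0
      nlinarith
  · rintro c u ⟨w, hw⟩ K hK
    have h1 := R647.FQ.signed_pairs hK w
    have h2 : signedSum c K - signedSum u K = 0 := by
      unfold signedSum
      rw [← sum_sub_distrib, ← h1]
      refine sum_congr rfl fun S _ => ?_
      rw [← hw S]
      unfold R647.FQ.chi
      ring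
    linarith

end Pool.Agent.Results.MP_23e236_ag.SignedSums
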