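import Pool.Agent.R647.FH.Strata

set_option autoImplicit false

/-!
# The F-conjecture for the divisors separating three marks

The marks are `0, …, p-1` (the type `Fin p`) and `∞`, so `n = p + 1`.  The boundary divisors of
`M̄_{0,n}` are the `δ_S`, `S` a set of marks different from `∞` with `2 ≤ |S| < p` (`δ_S`
separates `S` from the other marks).  The F-curve of type `(A, B, C)`, for disjoint nonempty sets
`A, B, C` of marks different from `∞`, is the one of the partition `A, B, C`, (the rest, with `∞`).

Fix three marks: `h`, `h'` and `∞` (three arbitrary marks, after a renumbering).  The boundary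
divisor `δ_S` separates the three marks if `S` contains `h` or `h'`; these are about three quarters
of the boundary divisors.

Theorem.  Let `D` be a linear combination, with coefficients of any sign, of boundary divisors that
separate the three marks.  If `D` is nonnegative on the F-curves then `D` is nef.

The divisors of the theorem are the divisors whose degree is zero on the F-curves with the three
marks in one of the four parts.  These F-curves are the ones contracted by the map of `M̄_{0,n}` to
Hassett's space `M̄_{0,(1,1,1,ε,…,ε)}` with three heavy marks and `n - 3` light marks; so the theorem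
is the F-conjecture for all the divisors pulled back from this space.  They form a linear space of
codimension `2^(n-3) - 1 - (n-3) - C(n-3,2)` in the Picard group, whose dimension is
`2^(n-1) - 1 - C(n,2)`.

The starting files on this problem restrict the curves; `MonotoneDegrees`, `PinchedDegrees` and
`SignedSums` treat divisors given by inequalities (the last one also the combinations of the
pullbacks from `M̄_{0,4}`).

Proof.  The condition is inherited by the strata.  In a suitable gauge the coefficients of the `δ_S`
with `S` light are zero, and the coefficients of the `δ_S` with `S` containing only `h`, as a function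
of the other elements of `S`, form a submodular function `α` on the sets of light marks (this is the
inequality for the F-curves with two light parts); the same holds for `h'` and `∞`, with functions
`β`, `γ`, and `α + β + γ ≥ 0`.  A light mark meets the three heavy marks on a curve in the same number
of points.  By the greedy inequality for submodular functions the degree of the curve is at least
the sum of the values of `α + β + γ` on the sets of the light marks with at least `t` such points,
`t = 1, 2, …`.

Curves.  An irreducible curve in `M̄_{0,n}` meets the interior of a unique stratum, and its class is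
the sum of its projections to the factors `M̄_{0,q+1}` of the stratum.  Such a factor belongs to
disjoint nonempty sets `B 0, …, B (q-1)` of marks different from `∞` (the marks behind the nodes and
marks of the component of the stable curve; the last one leads to `∞`).  On the factor the
projection of the curve has the intersection numbers `m S ≥ 0` with the boundary divisors
`δ_S`, `2 ≤ |S| < q`, the degree `d` on `ψ_∞`, and it meets the interior.  The divisor `δ_T` of
`M̄_{0,n}` restricts to `δ_S` if `T` is the union of the `B i`, `i ∈ S`, to `-ψ_i` if `T = B i`, and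
to `-ψ_∞` if `T` is the union of all `B i`.
-/

namespace Pool.Agent.Results.MP_23e236_ag.ThreeHeavyMarks

open Finset

variable {p q : ℕ}

/-- `c` is a family of coefficients: it stands for the divisor `∑ c S • δ_S`, the sum over the
`S` with `2 ≤ |S| < p`; it vanishes on the sets that give no boundary divisor. -/
def IsDivisor (c : Finset (Fin p) → ℝ) : Prop :=
  (∀ S : Finset (Fin p), S.card ≤ 1 → c S = 0) ∧ c univ = 0

/-- The degree of `∑ c S • δ_S` on the F-curve of type `(A, B, C)`. -/
def fdegree (c : Finset (Fin p) → ℝ) (A B C : Finset (Fin p)) : ℝ :=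
  c (A ∪ B) + c (A ∪ C) + c (B ∪ C) - c A - c B - c C - c (A ∪ B ∪ C)

/-- Nonnegative degree on every F-curve. -/
def FNef (c : Finset (Fin p) → ℝ) : Prop :=
  ∀ A B C : Finset (Fin p), A.Nonempty → B.Nonempty → C.Nonempty → Disjoint A B →
    Disjoint A C → Disjoint B C → 0 ≤ fdegree c A B C

/-- Degree zero on the F-curves with the marks `h`, `h'` and `∞` in the same part. -/
def LightZero (c : Finset (Fin p) → ℝ) (h h' : Fin p) : Prop :=
  ∀ A B C : Finset (Fin p), A.Nonempty → B.Nonempty → C.Nonempty → Disjoint A B →
    Disjoint A C → Disjoint B C → h ∉ A → h ∉ B → h ∉ C → h' ∉ A → h' ∉ B → h' ∉ C →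
    fdegree c A B C = 0

/-- Linear equivalence: the difference is a combination, with coefficients `w x y` whose sum is
zero (take `S = univ`), of the sums `∑ δ_S` over the `S` containing `x` and `y` (these sums are all
linearly equivalent to `ψ_∞`, and their differences generate the relations, by Keel's theorem). -/
def LinEquiv (c u : Finset (Fin p) → ℝ) : Prop :=
  ∃ w : Fin p → Fin p → ℝ, ∀ S : Finset (Fin p),
    c S - u S = ∑ y ∈ S, ∑ x ∈ S.filter (fun x : Fin p => x < y), w x y

/-- The `B i` are disjoint nonempty sets of marks different from `∞`. -/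
def IsStratum (B : Fin q → Finset (Fin p)) : Prop :=
  (∀ i, (B i).Nonempty) ∧ ∀ i j, i ≠ j → Disjoint (B i) (B j)

/-- `m S` are the intersection numbers with `δ_S` of a curve in `M̄_{0,q+1}` that is not contained
in the boundary, and `d` is its degree on `ψ_∞`: all `m S ≥ 0`, and for all marks `i ≠ j` different
from `∞` we have `ψ_∞ = ∑ δ_S`, the sum over the `S` containing `i` and `j`. -/
def IsCurve (m : Finset (Fin q) → ℕ) (d : ℕ) : Prop :=
  (∀ S : Finset (Fin q), S.card ≤ 1 → m S = 0) ∧ m univ = 0 ∧
    ∀ i j : Fin q, i ≠ j →
      ∑ S ∈ univ.filter (fun S : Finset (Fin q) => i ∈ S ∧ j ∈ S), m S = d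

/-- The degree of `∑ c S • δ_S` on the curve with the numbers `m`, `d` in the factor `M̄_{0,q+1}` of
a stratum given by the `B i`; the degree of `ψ_i` on the curve is `∑ m S - d`, the sum over the `S`
containing `i`. -/
def degree (c : Finset (Fin p) → ℝ) (B : Fin q → Finset (Fin p)) (m : Finset (Fin q) → ℕ)
    (d : ℕ) : ℝ :=
  ∑ S ∈ univ.filter (fun S : Finset (Fin q) => 2 ≤ S.card ∧ S.card < q), c (S.biUnion B) * m S -
    ∑ i, c (B i) * (∑ S ∈ univ.filter (fun S : Finset (Fin q) => i ∈ S), (m S : ℝ) - d) -
    c (univ.biUnion B) * d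

theorem pairs {G : Fin p → Fin p → ℝ} (hG : ∀ i, G i i = 0) (S : Finset (Fin p)) :
    ∑ i ∈ S, ∑ j ∈ S, G i j =
      ∑ y ∈ S, ∑ x ∈ S.filter (fun x : Fin p => x < y), (G x y + G y x) := by
  have e1 : ∀ i ∈ S, ∑ j ∈ S, G i j =
      ∑ j ∈ S.filter (fun j => j < i), G i j + ∑ j ∈ S.filter (fun j => i < j), G i j := by
    intro i hi
    rw [← sum_erase S (hG i), ← sum_union]
    · refine sum_congr ?_ fun _ _ => rfl
      ext j
      simp only [mem_erase, mem_union, mem_filter]
      constructor
      · rintro ⟨h1, h2⟩
        rcases lt_or_gt_of_ne h1 with h3 | h3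
        · exact Or.inl ⟨h2, h3⟩
        · exact Or.inr ⟨h2, h3⟩
      · rintro (⟨h1, h2⟩ | ⟨h1, h2⟩)
        · exact ⟨ne_of_lt h2, h1⟩
        · exact ⟨ne_of_gt h2, h1⟩
    · rw [disjoint_left]
      intro j hj hj'
      exact lt_asymm (mem_filter.1 hj).2 (mem_filter.1 hj').2
  have e2 : ∑ i ∈ S, ∑ j ∈ S.filter (fun j => i < j), G i j =
      ∑ y ∈ S, ∑ x ∈ S.filter (fun x => x < y), G x y := by
    simp only [sum_filter]
    rw [sum_comm]
  rw [sum_congr rfl e1, sum_add_distrib, e2, ← sum_add_distrib]
  refine sum_congr rfl fun y _ => ?_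
  rw [← sum_add_distrib]
  exact sum_congr rfl fun x _ => by ring

/-- Let `D = ∑ c S • δ_S` be a divisor on `M̄_{0,p+1}` with real coefficients, and let `h ≠ h'` be
marks different from `∞`.

1. `D` has degree zero on the F-curves with `h`, `h'`, `∞` in the same part if and only if `D` is
   linearly equivalent to a combination of boundary divisors that separate these three marks.
2. In this case, if `D` has nonnegative degree on all F-curves then `D` has nonnegative degree on
   all curves, in all strata; so `D` is nef. -/
theorem result (p : ℕ) (c : Finset (Fin p) → ℝ) (hc : IsDivisor c) (h h' : Fin p)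
    (hne : h ≠ h') :
    (LightZero c h h' ↔ ∃ u : Finset (Fin p) → ℝ, IsDivisor u ∧ LinEquiv c u ∧
      ∀ S : Finset (Fin p), u S ≠ 0 → h ∈ S ∨ h' ∈ S) ∧
    (LightZero c h h' → FNef c →
      ∀ (q : ℕ) (B : Fin q → Finset (Fin p)) (m : Finset (Fin q) → ℕ) (d : ℕ), 3 ≤ q →
        IsStratum B → IsCurve m d → 0 ≤ degree c B m d) := by
  refine ⟨⟨fun hz => ?_, ?_⟩, fun hz hF q B m d hq hB hm => ?_⟩
  · have h0 : c ∅ = 0 := hc.1 ∅ (by simp)
    have hz' : ∀ X Y Z : Finset (Fin p), X.Nonempty → Y.Nonempty → Z.Nonempty → Disjoint X Y →
        Disjoint X Z → Disjoint Y Z → h ∉ X → h ∉ Y → h ∉ Z → h' ∉ X → h' ∉ Y → h' ∉ Z →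
        R647.AF.T c X Y Z = 0 := hz
    refine ⟨R647.FH.nn c h h', ⟨fun S hS => ?_, R647.FH.nn_univ c h h'⟩,
      ⟨fun x y => R647.FH.GG c h h' x y + R647.FH.GG c h h' y x, fun S => ?_⟩, fun S hS => ?_⟩
    · rcases Nat.lt_or_ge S.card 1 with h1 | h1
      · rw [card_eq_zero.1 (show S.card = 0 by omega), R647.FH.nn_empty h0]
      · obtain ⟨i, hi⟩ := card_eq_one.1 (show S.card = 1 by omega)
        rw [hi, R647.FH.nn_single hne]
    · rw [← pairs (R647.FH.GG_self hne) S]
      unfold R647.FH.nn
      have e : ∑ i ∈ S, c {i} = 0 := sum_eq_zero fun i _ => hc.1 {i} (by simp)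
      rw [e]
      ring
    · by_contra hn
      rw [not_or] at hn
      exact hS (R647.FH.nn_light h0 hne hz' S hn.1 hn.2)
  · rintro ⟨u, hu, ⟨w, hw⟩, hsupp⟩ A B C _ _ _ h1 h2 h3 k1 k2 k3 l1 l2 l3
    have hcu : ∀ S : Finset (Fin p), h ∉ S → h' ∉ S →
        c S = ∑ i ∈ S, ∑ j ∈ S, (if j < i then w j i else 0) := by
      intro S a1 a2
      have e1 : u S = 0 := by
        by_contra hn
        rcases hsupp S hn with e | e
        · exact a1 e
        · exact a2 e
      have e2 := hw S
      rw [e1, sub_zero] at e2
      rw [e2]
      refine sum_congr rfl fun y _ => ?_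
      rw [sum_filter]
    have hun : ∀ x : Fin p, ∀ X Y : Finset (Fin p), x ∉ X → x ∉ Y → x ∉ X ∪ Y :=
      fun x X Y a1 a2 => by
        rw [mem_union, not_or]
        exact ⟨a1, a2⟩
    have key := R647.FH.T_quad (fun i j : Fin p => if j < i then w j i else 0) h1 h2 h3
    unfold R647.AF.T at key
    unfold fdegree
    rw [hcu (A ∪ B ∪ C) (hun h _ _ (hun h _ _ k1 k2) k3) (hun h' _ _ (hun h' _ _ l1 l2) l3),
      hcu (A ∪ B) (hun h _ _ k1 k2) (hun h' _ _ l1 l2),
      hcu (A ∪ C) (hun h _ _ k1 k3) (hun h' _ _ l1 l3),
      hcu (B ∪ C) (hun h _ _ k2 k3) (hun h' _ _ l2 l3), hcu A k1 l1, hcu B k2 l2, hcu C k3 l3]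
    exact key
  · exact R647.FH.nef (hc.1 ∅ (by simp)) hF hz (by omega) hB.1 hB.2 hm.1 hm.2.1 hm.2.2

end Pool.Agent.Results.MP_23e236_ag.ThreeHeavyMarks
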